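import Mathlib

open Polynomial Finset

namespace Pool.Agent.Results.MP_6bbb8b_nt.Base

/-- `(d k, ..., d 0)_b` is an `(n,b)`-palintiple with carries `c`. -/
def IsPal (n b k : ℕ) (d c : ℕ → ℕ) : Prop :=
  3 ≤ b ∧ 1 < n ∧ n < b ∧ 1 ≤ k ∧ d 0 ≠ 0 ∧ (∀ j ≤ k, d j < b) ∧
    ∑ j ∈ range (k + 1), d j * b ^ j = n * ∑ j ∈ range (k + 1), d (k - j) * b ^ j ∧
    c 0 = 0 ∧ c (k + 1) = 0 ∧ ∀ j ≤ k, n * d (k - j) + c j = d j + b * c (j + 1)

noncomputable def poly (f : ℕ → ℕ) (k : ℕ) : ℤ[X] := ∑ j ∈ range (k + 1), monomial j (f j : ℤ)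

lemma coeff_poly (f : ℕ → ℕ) (k j : ℕ) : (poly f k).coeff j = if j ≤ k then (f j : ℤ) else 0 := by
  simp [poly, finset_sum_coeff, coeff_monomial, Nat.lt_succ_iff]

lemma arith {w x y n b N t : ℤ} (hw : 1 ≤ w) (hx : 1 ≤ x) (hn : 1 < n) (hb : w * y < b)
    (hN : w * y < N) (hy : 0 ≤ y) (h1 : b * y + x = n * (b * x + y))
    (h2 : t * (N ^ 2 - 1) = w * x * (N * x + y)) (hb1 : 1 < b) : N = b := by
  have hyx : x < y := by
    by_contra hc
    push Not at hc
    have : 0 < b * x + y := by positivity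
    nlinarith
  have hy1 : y ≤ w * y := by nlinarith
  have hN1 : 1 < N := by linarith
  have hM : 0 < N ^ 2 - 1 := by nlinarith
  have hp : 0 < N * x + y := by positivity
  have hq : 0 < b * x + y := by positivity
  have ht : 0 < t := by
    by_contra hc
    push Not at hc
    have : 0 < w * x * (N * x + y) := by positivity
    nlinarith
  have hd : 0 < y ^ 2 - x ^ 2 := by nlinarith
  have e1 : (y - n * x) * (b * x + y) = y ^ 2 - x ^ 2 := by linear_combination x * h1
  have e2 : (w * x ^ 3 - t * (N * x - y)) * (N * x + y) = t * (y ^ 2 - x ^ 2) := by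
    linear_combination (-x ^ 2) * h2
  set m := y - n * x with hm
  set u := w * x ^ 3 - t * (N * x - y) with hu
  have m0 : 0 < m := by
    by_contra hc
    push Not at hc
    nlinarith
  have u0 : 0 < u := by
    by_contra hc
    push Not at hc
    have := mul_pos ht hd
    nlinarith
  have hz : 0 < w * x + 1 := by positivity
  have y0 : 0 < y := by linarith
  have b1 : t * y ≤ x * (w * x + 1) := by
    have a1 : w * y * (N * x + y) ≤ (N - 1) * (N * x + y) :=
      mul_le_mul_of_nonneg_right (by linarith) hp.le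
    have a2 : N * x + y ≤ (w * x + 1) * (N + 1) := by nlinarith [mul_pos (show 0 < N by linarith) (show 0 < x by linarith)]
    have a3 : (N - 1) * (N * x + y) ≤ (N - 1) * ((w * x + 1) * (N + 1)) :=
      mul_le_mul_of_nonneg_left a2 (by linarith)
    have a4 : x * (w * y * (N * x + y)) ≤ x * ((N - 1) * ((w * x + 1) * (N + 1))) :=
      mul_le_mul_of_nonneg_left (a1.trans a3) (by linarith)
    have a5 : t * y * (N ^ 2 - 1) ≤ x * (w * x + 1) * (N ^ 2 - 1) := by
      linear_combination a4 + y * h2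
    exact le_of_mul_le_mul_right a5 hM
  have b2 : m * (w * x + 1) < y := by
    have a1 : y * (w * x + 1) ≤ b * x + y := by nlinarith
    have a2 := mul_le_mul_of_nonneg_left a1 m0.le
    have a3 : y * (m * (w * x + 1)) < y * y := by nlinarith
    exact lt_of_mul_lt_mul_left a3 y0.le
  have b3 : u * (w * x + 1) < t * y := by
    have a1 : y * (w * x + 1) ≤ N * x + y := by nlinarith
    have a2 := mul_le_mul_of_nonneg_left a1 u0.le
    have a4 : 0 < t * x ^ 2 := by positivity
    have a3 : y * (u * (w * x + 1)) < y * (t * y) := by nlinarith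
    exact lt_of_mul_lt_mul_left a3 y0.le
  have c1 : u < x := lt_of_mul_lt_mul_right (b3.trans_le b1) hz.le
  have c2 : t * m < x := by
    have := mul_lt_mul_of_pos_left b2 ht
    exact lt_of_mul_lt_mul_right (a := w * x + 1) (by nlinarith) hz.le
  have c3 := mul_pos ht m0
  have e3 : u - t * m = x * (w * x ^ 2 - t * N + t * n) := by rw [hu, hm]; ring
  have s0 : w * x ^ 2 - t * N + t * n = 0 := by
    rcases lt_trichotomy (w * x ^ 2 - t * N + t * n) 0 with h | h | h
    · nlinarith
    · exact h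
    · nlinarith
  have e4 : u = t * m := by rw [s0] at e3; linarith
  have e5 : t * m * x * (N - b) = 0 := by
    rw [e4] at e2
    linear_combination e2 - t * e1
  have : t * m * x ≠ 0 := by positivity
  have := (mul_eq_zero.1 e5).resolve_left this
  linarith

theorem result (n b k N B : ℕ) (d c e f : ℕ → ℕ) (hp : IsPal n b k d c)
    (hs : ∀ j ≤ k, c j = c (k - j + 1)) (hq : IsPal N B (k + 2) e f)
    (hf : ∀ j ≤ k, f (j + 1) = d j) (hf' : f (k + 2) = 0) : N = b := by
  obtain ⟨hb3, hn, -, -, hd0, hdb, -, hc0, hck, hc⟩ := hp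
  obtain ⟨-, hN, hNB, -, -, heB, -, hf0, hfk, he⟩ := hq
  have hcar : ∀ j ≤ k + 3, f j < N := by
    intro j
    induction j with
    | zero => intro _; omega
    | succ j ih =>
      intro hj
      have h1 := ih (by omega)
      have h2 := he j (by omega)
      have h3 := heB (k + 2 - j) (by omega)
      by_contra hcon
      push Not at hcon
      have h4 := Nat.mul_le_mul_left B hcon
      have h5 := Nat.mul_le_mul_left N (show e (k + 2 - j) + 1 ≤ B from h3)
      nlinarith
  have hd : ∀ j ≤ k, ((n : ℤ) ^ 2 - 1) * d j = (n * b - 1) * c j + (b - n) * c (j + 1) := by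
    intro j hj
    have h1 := hc j hj
    have h2 := hc (k - j) (by omega)
    rw [show k - (k - j) = j by omega, ← hs j hj, hs (k - j) (by omega),
      show k - (k - j) = j by omega] at h2
    zify at h1 h2
    linear_combination h1 + n * h2
  have hn' : (1 : ℤ) < n := by exact_mod_cast hn
  have hM : ((n : ℤ) ^ 2 - 1) ≠ 0 := by nlinarith
  obtain ⟨x, y, hxy, hx, hy⟩ := Nat.exists_coprime (d 0) (d k)
  set w := Nat.gcd (d 0) (d k) with hw
  have hw0 : 0 < w := Nat.gcd_pos_of_pos_left _ (Nat.pos_of_ne_zero hd0)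
  have hx0 : 0 < x := Nat.pos_of_ne_zero fun h => hd0 (by rw [hx, h, zero_mul])
  have hx' : (d 0 : ℤ) = x * w := by exact_mod_cast hx
  have hy' : (d k : ℤ) = y * w := by exact_mod_cast hy
  have hc1 : c k = c 1 := by have := hs k le_rfl; rwa [Nat.sub_self] at this
  have hab : ((b : ℤ) - n) * y = (n * b - 1) * x := by
    have h1 := hd 0 (Nat.zero_le _)
    have h2 := hd k le_rfl
    rw [hc0, hx', zero_add] at h1
    rw [hck, hy', hc1] at h2
    have hw' : (w : ℤ) ≠ 0 := by exact_mod_cast hw0.ne'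
    apply mul_left_cancel₀ (mul_ne_zero hM hw')
    push_cast at h1 h2
    linear_combination ((b : ℤ) - n) * h2 - (n * b - 1) * h1
  set D := poly d k with hD
  set R := poly (fun j => d (k - j)) k with hR
  set Cc := poly (fun j => c (j + 1)) k with hC
  have i1 : C ((n : ℤ) ^ 2 - 1) * D = (C ((b : ℤ) - n) + C ((n : ℤ) * b - 1) * X) * Cc := by
    ext j
    rw [add_mul, mul_assoc, coeff_add, coeff_C_mul, coeff_C_mul, coeff_C_mul]
    rcases j with _ | j
    · rw [coeff_X_mul_zero, hD, hC, coeff_poly, coeff_poly, if_pos (Nat.zero_le _),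
        if_pos (Nat.zero_le _), hd 0 (Nat.zero_le _), hc0]
      simp
    · rw [coeff_X_mul, hD, hC, coeff_poly, coeff_poly, coeff_poly]
      by_cases h1 : j + 1 ≤ k
      · rw [if_pos h1, if_pos h1, if_pos (by omega), hd _ h1]; ring
      · rw [if_neg h1, if_neg h1]
        split_ifs with h2
        · rw [show j = k by omega, hck]; simp
        · simp
  have i2 : C ((n : ℤ) ^ 2 - 1) * R = (C ((n : ℤ) * b - 1) + C ((b : ℤ) - n) * X) * Cc := by
    ext j
    rw [add_mul, mul_assoc, coeff_add, coeff_C_mul, coeff_C_mul, coeff_C_mul]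
    rcases j with _ | j
    · rw [coeff_X_mul_zero, hR, hC, coeff_poly, coeff_poly, if_pos (Nat.zero_le _),
        if_pos (Nat.zero_le _), Nat.sub_zero, hd k le_rfl, hck, hc1]
      simp
    · rw [coeff_X_mul, hR, hC, coeff_poly, coeff_poly, coeff_poly]
      by_cases h1 : j + 1 ≤ k
      · rw [if_pos h1, if_pos h1, if_pos (by omega), hd _ (Nat.sub_le _ _), ← hs _ h1,
          hs (k - (j + 1)) (Nat.sub_le _ _), show k - (k - (j + 1)) = j + 1 by omega]
      · rw [if_neg h1, if_neg h1]
        split_ifs with h2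
        · rw [show j = k by omega, hck]; simp
        · simp
  have i3 : (C (y : ℤ) + C (x : ℤ) * X) * D = (C (x : ℤ) + C (y : ℤ) * X) * R := by
    apply mul_left_cancel₀ (C_ne_zero.2 hM)
    have := congrArg C hab
    rw [C_mul, C_mul] at this
    linear_combination (C (y : ℤ) + C (x : ℤ) * X) * i1 - (C (x : ℤ) + C (y : ℤ) * X) * i2
      + (1 - X ^ 2) * Cc * this
  have hfD : ∀ j, j ≤ k + 2 → (f (j + 1) : ℤ) = D.coeff j := by
    intro j hj
    rw [hD, coeff_poly]
    split_ifs with h
    · rw [hf j h]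
    · rcases (show j = k + 1 ∨ j = k + 2 by omega) with rfl | rfl
      · exact_mod_cast hf'
      · exact_mod_cast hfk
  have hfR : ∀ j, j ≤ k + 1 → (f (k + 1 - j) : ℤ) = R.coeff j := by
    intro j hj
    rw [hR, coeff_poly]
    split_ifs with h
    · rw [show k + 1 - j = k - j + 1 by omega, hf _ (Nat.sub_le _ _)]
    · rw [show k + 1 - j = 0 by omega, hf0]; rfl
  have hDz : ∀ j, k < j → D.coeff j = 0 ∧ R.coeff j = 0 := fun j hj => by
    rw [hD, hR, coeff_poly, coeff_poly, if_neg (by omega), if_neg (by omega)]; exact ⟨rfl, rfl⟩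
  have he2 : ∀ j ≤ k + 2, ((N : ℤ) ^ 2 - 1) * e (k + 2 - j) = N * (B * f (j + 1) - f j) +
      (B * f (k + 2 - j + 1) - f (k + 2 - j)) := by
    intro j hj
    have h1 := he j hj
    have h2 := he (k + 2 - j) (by omega)
    rw [show k + 2 - (k + 2 - j) = j by omega] at h2
    zify at h1 h2
    linear_combination N * h1 + h2
  have i4 : C ((N : ℤ) ^ 2 - 1) ∣ C (N : ℤ) * (C (B : ℤ) * D - X * D) +
      (C (B : ℤ) * (X * (X * R)) - X * R) := by
    rw [C_dvd_iff_dvd_coeff]
    intro j
    simp only [coeff_add, coeff_sub, coeff_C_mul]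
    by_cases hj : j ≤ k + 2
    · refine ⟨e (k + 2 - j), ?_⟩
      rw [he2 j hj, ← hfD j hj]
      rcases j with _ | _ | j
      · simp [hf0, hf', hfk]
      · rw [coeff_X_mul, coeff_X_mul, coeff_X_mul, coeff_X_mul_zero, ← hfD 0 (by omega),
          ← hfR 0 (by omega), show k + 2 - (0 + 1) + 1 = k + 2 by omega, hf']
        simp
      · rw [coeff_X_mul, coeff_X_mul, coeff_X_mul, coeff_X_mul, ← hfD (j + 1) (by omega),
          ← hfR j (by omega), ← hfR (j + 1) (by omega),
          show k + 2 - (j + 1 + 1) + 1 = k + 1 - j by omega,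
          show k + 2 - (j + 1 + 1) = k + 1 - (j + 1) by omega]
    · obtain ⟨i, rfl⟩ : ∃ i, j = i + 2 := ⟨j - 2, by omega⟩
      rw [coeff_X_mul, coeff_X_mul, coeff_X_mul, coeff_X_mul, (hDz (i + 2) (by omega)).1,
        (hDz (i + 1) (by omega)).1, (hDz (i + 1) (by omega)).2, (hDz i (by omega)).2]
      simp
  set Q : ℤ[X] := C ((N : ℤ) * B * x) + C ((N : ℤ) * (B * y - x) - y) * X +
    C ((B : ℤ) * y - x - N * y) * X ^ 2 + C ((B : ℤ) * x) * X ^ 3 with hQ
  have i5 : C ((N : ℤ) ^ 2 - 1) ∣ D * Q := by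
    have : D * Q = (C (x : ℤ) + C (y : ℤ) * X) * (C (N : ℤ) * (C (B : ℤ) * D - X * D) +
        (C (B : ℤ) * (X * (X * R)) - X * R)) := by
      rw [hQ]
      simp only [map_mul, map_sub]
      linear_combination (C (B : ℤ) * X ^ 2 - X) * i3
    rw [this]
    exact i4.mul_left _
  rw [← dvd_content_iff_C_dvd, content_mul] at i5
  have g1 : D.content ∣ (w : ℤ) := by
    have a1 := content_dvd_coeff (p := D) 0
    have a2 := content_dvd_coeff (p := D) k
    rw [hD, coeff_poly, if_pos (by omega)] at a1 a2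
    exact Int.dvd_coe_gcd a1 a2
  have q2 : Q.coeff 2 = B * y - x - N * y := by
    simp only [hQ, coeff_add, coeff_C_mul, coeff_X_pow, coeff_C, coeff_X]; simp
  have q3 : Q.coeff 3 = B * x := by
    simp only [hQ, coeff_add, coeff_C_mul, coeff_X_pow, coeff_C, coeff_X]; simp
  obtain ⟨s2, hs2⟩ := i5.trans (mul_dvd_mul g1 (content_dvd_coeff (p := Q) 2))
  obtain ⟨s3, hs3⟩ := i5.trans (mul_dvd_mul g1 (content_dvd_coeff (p := Q) 3))
  rw [q2] at hs2
  rw [q3] at hs3
  have l1 : d k < b := hdb k le_rfl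
  have l2 : d k < N := hf k le_rfl ▸ hcar (k + 1) (by omega)
  have := arith (w := w) (x := x) (y := y) (n := n) (b := b) (N := N)
    (t := N * (y * s3 - x * s2) - w * x * y) (by exact_mod_cast hw0) (by exact_mod_cast hx0) hn'
    (by rw [mul_comm, ← hy']; exact_mod_cast l1) (by rw [mul_comm, ← hy']; exact_mod_cast l2)
    (by positivity) (by linear_combination hab)
    (by linear_combination (N * x : ℤ) * hs2 - (N * y : ℤ) * hs3) (by exact_mod_cast (by omega))
  exact_mod_cast this

end Pool.Agent.Results.MP_6bbb8b_nt.Base
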